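import Pool.Agent.Lib.MP_c4a252_co.Final

namespace Pool.Agent.Results.MP_c4a252_co.StrictGap

/-- The Euclidean plane. -/
abbrev Plane := EuclideanSpace ℝ (Fin 2)

/-- The rendezvous value `a(E)`: the supremum, over finite lists of points of `E`, of the minimum
over `z ∈ E` of the mean distance from the listed points to `z`. -/
noncomputable def rendezvousValue (E : Set Plane) : ℝ :=
  sSup {v : ℝ | ∃ m : ℕ, 0 < m ∧ ∃ p : Fin m → Plane, (∀ k, p k ∈ E) ∧
    v = sInf ((fun z => (∑ k, dist (p k) z) / (m : ℝ)) '' E)}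

/-- The planar rendezvous constant `R₂`. -/
noncomputable def R2 : ℝ :=
  sSup {r : ℝ | ∃ E : Set Plane, IsCompact E ∧ IsConnected E ∧ E.Nontrivial ∧
    r = rendezvousValue E / Metric.diam E}

/-- The maximal average pairwise distance `S₂` under unit diameter. -/
noncomputable def S2 : ℝ :=
  sSup {s : ℝ | ∃ m : ℕ, 0 < m ∧ ∃ p : Fin m → Plane, (∀ k l, dist (p k) (p l) ≤ 1) ∧
    s = (∑ k, ∑ l, dist (p k) (p l)) / (m : ℝ) ^ 2}

theorem result : R2 < S2 := by
  obtain ⟨c, c0, hc, h⟩ := Pool.Agent.Lib.MP_c4a252_co.gap''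
  refine lt_of_le_of_lt (Real.sSup_le ?_ c0) hc
  rintro _ ⟨E, h1, h2, h3, rfl⟩
  have hd := Metric.diam_pos h3 h1.isBounded
  rw [div_le_iff₀ hd]
  refine Real.sSup_le ?_ (by positivity)
  rintro _ ⟨m, hm, p, hp, rfl⟩
  refine h E _ h1 h2 hd m hm p hp fun y hy => csInf_le ⟨0, ?_⟩ (Set.mem_image_of_mem _ hy)
  rintro _ ⟨z, -, rfl⟩
  positivity

end Pool.Agent.Results.MP_c4a252_co.StrictGap
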